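import Pool.Agent.Y485.HS.Stm

/-!
# Project SP (helper489): the Hilbert-Smith conjecture for homeomorphisms of class `W^{1,p}`, `p > n - 1`

Definitions and statements. The set-up (`E n`, `BB n`, `Haj`, `LocAct`, `ProP`, `BiLip`, `Reg`) is
that of project HS of helper485.
-/

set_option autoImplicit false

open MeasureTheory Set Metric Filter Topology
open scoped ENNReal NNReal

noncomputable section

namespace Pool.Agent.Y489.SP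

open Pool.Agent.Y485.HS

/-- the discrete energy: the sum of the `n`-th powers of the diameters of the images of balls with
`r`-separated centres is at most `N r ^ (-1 + 1 / N)` -/
def En {n : ℕ} (N : ℕ) (u : E n → E n) : Prop :=
  ∀ r : ℝ, 0 < r → r ≤ 1 → ∀ A : Finset (E n), (∀ a ∈ A, a ∈ closedBall (0 : E n) 3) →
    (∀ a ∈ A, ∀ b ∈ A, a ≠ b → r ≤ dist a b) →
    ∑ a ∈ A, Metric.diam (u '' (closedBall a r ∩ closedBall 0 3)) ^ n ≤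
      N * r ^ (1 / (N : ℝ) - 1)

/-- the same for maps of a metric space, with balls of all sizes comparable to `r` -/
def Sca (n : ℕ) {X : Type} [MetricSpace X] (f : X → X) : Prop :=
  ∀ C ⊆ Reg n X, IsCompact C → ∀ c : ℕ, ∃ N : ℕ, ∀ r : ℝ, 0 < r → r ≤ 1 → ∀ A : Finset X,
    (∀ a ∈ A, a ∈ C) → (∀ a ∈ A, ∀ b ∈ A, a ≠ b → r ≤ dist a b) →
    ∑ a ∈ A, Metric.diam (f '' (closedBall a (c * r) ∩ C)) ^ n ≤ N * r ^ (1 / (N : ℝ) - 1)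

/-- the Sobolev class of exponent `q` on the ball, in the form of Hajlasz -/
def SobP {n : ℕ} (q : ℝ) (u : E n → E n) : Prop :=
  ∃ g : E n → ℝ≥0∞, Measurable g ∧ Haj (BB n) u g ∧ ∫⁻ x in BB n, g x ^ q < ∞

/-- the Sobolev class of exponent `q` on the regular part -/
def SobX (n : ℕ) (q : ℝ) {X : Type} [MetricSpace X] [MeasurableSpace X] [BorelSpace X]
    (f : X → X) : Prop :=
  ∀ C ⊆ Reg n X, IsCompact C → ∃ g : X → ℝ≥0∞, Measurable g ∧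
    (∀ a ∈ C, ∀ b ∈ C, edist (f a) (f b) ≤ edist a b * (g a + g b)) ∧
    ∫⁻ a in C, g a ^ q ∂(Measure.hausdorffMeasure (n : ℝ)) < ∞

/-- the class of the main theorem -/
def Adm (n : ℕ) {X : Type} [MetricSpace X] [MeasurableSpace X] [BorelSpace X] (f : X → X) :
    Prop :=
  Sca n f ∨ ∃ q : ℝ, (n : ℝ) - 1 < q ∧ SobX n q f

/-! ### degree theory -/

/-- smooth approximation -/
def S_APX : Prop := ∀ (n : ℕ) (F : E n → E n), ContinuousOn F (BB n) →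
  (∀ x ∈ BB n, dist (F x) x ≤ 1 / 4) → ∀ ε : ℝ, 0 < ε →
  ∃ F0 : E n → E n, ContDiff ℝ 1 F0 ∧ (∀ x, 6 ≤ ‖x‖ → F0 x = x) ∧
    (∀ x ∈ closedBall (0 : E n) 3, dist (F0 x) (F x) ≤ ε) ∧ ∀ x, dist (F0 x) x ≤ 1 / 2

/-- homotopy invariance of the local degree -/
def S_HOMT : Prop := ∀ (n : ℕ) (F0 F1 : E n → E n) (R : ℝ), ContDiff ℝ 1 F0 → ContDiff ℝ 1 F1 →
  (∀ x, R ≤ ‖x‖ → F0 x = x) → ∀ (U V : Set (E n)) (η δ : ℝ) (y : E n), IsOpen U →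
  Bornology.IsBounded V → 0 < η → 0 < δ → thickening η U ⊆ V →
  (∀ x ∈ V \ U, ∀ t ∈ Icc (0 : ℝ) 1, δ ≤ dist (F0 x + t • (F1 x - F0 x)) y) →
  ∀ φ : E n → ℝ, Continuous φ → (∀ w, δ ≤ dist w y → φ w = 0) →
    ∫ x in U, φ (F1 x) * (fderiv ℝ F1 x).det = ∫ x in U, φ (F0 x) * (fderiv ℝ F0 x).det

/-- the local degree of a composition with a map of degree one -/
def S_COMPT : Prop := ∀ (n : ℕ) (F0 τ0 : E n → E n) (R : ℝ), ContDiff ℝ 1 F0 → ContDiff ℝ 1 τ0 →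
  (∀ x, R ≤ ‖x‖ → F0 x = x) → (∀ x, R ≤ ‖x‖ → τ0 x = x) →
  ∀ (U U' K' : Set (E n)) (φ : E n → ℝ), IsOpen U → IsOpen U' → IsClosed K' → K' ⊆ U' →
  Bornology.IsBounded U' → Continuous φ → (∀ x ∈ U', φ (F0 x) ≠ 0 → x ∈ K') →
  (∀ x, φ (F0 (τ0 x)) ≠ 0 → (x ∈ U ↔ τ0 x ∈ U')) →
    ∫ x in U, φ (F0 (τ0 x)) * (fderiv ℝ (fun z => F0 (τ0 z)) x).det =
      ∫ x in U', φ (F0 x) * (fderiv ℝ F0 x).det

/-- the local degree is an integer -/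
def S_INT : Prop := ∀ (n : ℕ) (F0 : E n → E n) (R : ℝ), ContDiff ℝ 1 F0 →
  (∀ x, R ≤ ‖x‖ → F0 x = x) → ∀ (U V : Set (E n)) (η δ : ℝ) (y : E n), IsOpen U →
  Bornology.IsBounded V → 0 < η → 0 < δ → thickening η U ⊆ V →
  (∀ x ∈ V \ U, 2 * δ ≤ dist (F0 x) y) →
  ∃ d : ℤ, ∀ φ : E n → ℝ, Continuous φ → (∀ w, δ / 2 ≤ dist w y → φ w = 0) →
    ∫ x in U, φ (F0 x) * (fderiv ℝ F0 x).det = d * ∫ w, φ w

/-- a fibre of a map close to the identity cannot be permuted cyclically -/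
def S_DEGP : Prop := ∀ (n : ℕ), 1 ≤ n → ∀ (p : ℕ), 2 ≤ p → ∀ (F τ : E n → E n),
  ContinuousOn F (BB n) → ContinuousOn τ (BB n) → (∀ x ∈ BB n, dist (F x) x ≤ 1 / 4) →
  (∀ x ∈ BB n, dist (τ x) x ≤ 1 / 4) → (∀ x ∈ closedBall (0 : E n) 3, F (τ x) = F x) →
  ∀ y ∈ ball (0 : E n) 1, ∀ W : ZMod p → Set (E n), (∀ i, IsCompact (W i)) →
  (∀ i j, i ≠ j → Disjoint (W i) (W j)) →
  (⋃ i, W i) = {x | x ∈ closedBall (0 : E n) 3 ∧ F x = y} →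
  (∀ i, ∀ x ∈ W i, τ x ∈ W (i + 1)) → False

/-- cyclic partition of a totally separated compact set -/
def S_PART : Prop := ∀ (n p : ℕ), p.Prime → ∀ (Φ : Set (E n)) (τ : E n → E n), IsCompact Φ →
  (∀ x ∈ Φ, ∀ x' ∈ Φ, x ≠ x' → ∃ (i : Fin n) (t : ℝ), (∀ z ∈ Φ, z i ≠ t) ∧
    ((x i < t ∧ t < x' i) ∨ (x' i < t ∧ t < x i))) →
  ContinuousOn τ Φ → (∀ x ∈ Φ, τ x ∈ Φ) → (∀ x ∈ Φ, τ x ≠ x) →
  (∀ ε : ℝ, 0 < ε → ∃ J : ℕ, ∀ x ∈ Φ, dist (τ^[p ^ J] x) x < ε) →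
  ∃ W : ZMod p → Set (E n), (∀ i, IsCompact (W i)) ∧ (∀ i j, i ≠ j → Disjoint (W i) (W j)) ∧
    (⋃ i, W i) = Φ ∧ ∀ i, ∀ x ∈ W i, τ x ∈ W (i + 1)

/-! ### the class -/

/-- almost every fibre is totally separated by hyperplanes -/
def S_NUL : Prop := ∀ (n : ℕ), 1 ≤ n → ∀ (F : E n → E n) (N : ℕ), ContinuousOn F (BB n) → En N F →
  ∀ᵐ y : E n, ∀ x ∈ closedBall (0 : E n) 3, ∀ x' ∈ closedBall (0 : E n) 3, F x = y → F x' = y →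
    x ≠ x' → ∃ (i : Fin n) (t : ℝ), (∀ z ∈ closedBall (0 : E n) 3, F z = y → z i ≠ t) ∧
      ((x i < t ∧ t < x' i) ∨ (x' i < t ∧ t < x i))

/-- averages -/
def S_AVE : Prop := ∀ (n : ℕ), 1 ≤ n → ∀ (Ω : Type) [TopologicalSpace Ω] [CompactSpace Ω]
  [MeasurableSpace Ω] [BorelSpace Ω] (μ : Measure Ω) [IsProbabilityMeasure μ]
  (T : Ω → E n → E n), ContinuousOn (fun q : Ω × E n => T q.1 q.2) (univ ×ˢ BB n) →
  ∀ N : ℕ, (∀ ω, En N (T ω)) →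
    En N (fun x => ∫ ω, T ω x ∂μ) ∧ ContinuousOn (fun x => ∫ ω, T ω x ∂μ) (BB n)

/-- Baire category -/
def S_BAI : Prop := ∀ (n : ℕ), 1 ≤ n → ∀ (H : Type) [Group H] [TopologicalSpace H]
  [IsTopologicalGroup H] [CompactSpace H] [T2Space H] [TotallyDisconnectedSpace H]
  (T : H → E n → E n), ContinuousOn (fun q : H × E n => T q.1 q.2) (univ ×ˢ BB n) →
  (∀ h, ∃ N : ℕ, En N (T h)) →
    ∃ (h0 : H) (K : Subgroup H) (N : ℕ), IsOpen (K : Set H) ∧ ∀ k ∈ K, En N (T (h0 * k))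

/-- Morrey's inequality on a cube of dimension `m` -/
def S_MOR : Prop := ∀ (m : ℕ), 1 ≤ m → ∀ q : ℝ, (m : ℝ) < q → ∃ C : ℝ≥0, ∀ (Z : Type)
  [MetricSpace Z] (a : Fin m → ℝ) (l : ℝ), 0 < l → ∀ (u : (Fin m → ℝ) → Z)
  (g : (Fin m → ℝ) → ℝ≥0∞), ContinuousOn u (Icc a (fun i => a i + l)) → Measurable g →
  (∀ x ∈ Icc a (fun i => a i + l), ∀ y ∈ Icc a (fun i => a i + l),
    edist (u x) (u y) ≤ edist x y * (g x + g y)) →
  ∀ x ∈ Icc a (fun i => a i + l), ∀ y ∈ Icc a (fun i => a i + l),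
    edist (u x) (u y) ^ q ≤ C * ENNReal.ofReal (l ^ (q - m)) *
      ∫⁻ z in Icc a (fun i => a i + l), g z ^ q

/-- oscillation of homeomorphisms -/
def S_FACE : Prop := ∀ (n : ℕ), 2 ≤ n → ∀ q : ℝ, (n : ℝ) - 1 < q → ∃ C : ℝ≥0, ∀ (H : Type)
  [Group H] [TopologicalSpace H] (T : H → E n → E n), LocAct n H T → ∀ (h : H)
  (g : E n → ℝ≥0∞), Measurable g → Haj (BB n) (T h) g →
  ∀ a ∈ closedBall (0 : E n) 3, ∀ r : ℝ, 0 < r → r ≤ 1 / (8 * n) →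
    ENNReal.ofReal (Metric.diam (T h '' closedBall a r)) ^ q ≤
      C * ENNReal.ofReal (r ^ (q - n)) * ∫⁻ z in closedBall a (2 * n * r), g z ^ q

/-- Sobolev homeomorphisms belong to the class -/
def S_SOB : Prop := ∀ (n : ℕ), 2 ≤ n → ∀ (H : Type) [Group H] [TopologicalSpace H]
  (T : H → E n → E n), LocAct n H T → ∀ (h : H) (q : ℝ), (n : ℝ) - 1 < q → SobP q (T h) →
  ∃ N : ℕ, En N (T h)

/-! ### local and global theorems -/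

/-- the local theorem for one element -/
def S_LOCS : Prop := ∀ (p : ℕ), p.Prime → ∀ (n : ℕ), 1 ≤ n → ∀ (H : Type) [Group H]
  [TopologicalSpace H] [IsTopologicalGroup H] [CompactSpace H] [T2Space H]
  (T : H → E n → E n), LocAct n H T → ∀ (h0 : H) (K : Subgroup H) (N : ℕ),
  IsClosed (K : Set H) → (∀ k ∈ K, En N (T (h0 * k))) →
  ∀ g ∈ K, Tendsto (fun j : ℕ => g ^ p ^ j) atTop (𝓝 1) →
    ∀ x ∈ ball (0 : E n) (1 / 2), T g x = x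

/-- powers in pro-`p` groups -/
def S_POW : Prop := ∀ (p : ℕ), p.Prime → ∀ (P : Type) [Group P] [TopologicalSpace P]
  [IsTopologicalGroup P] [CompactSpace P] [T2Space P] [TotallyDisconnectedSpace P], ProP p P →
  ∀ g : P, Tendsto (fun j : ℕ => g ^ p ^ j) atTop (𝓝 1)

/-- transfer of an action to a chart -/
def S_TRA : Prop := ∀ (n : ℕ), 2 ≤ n → ∀ (X : Type) [MetricSpace X] [MeasurableSpace X]
  [BorelSpace X] (H : Type) [Group H] [TopologicalSpace H] [MulAction H X] [ContinuousSMul H X]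
  (U : Set X) (ψ : X → E n) (L : ℝ), BiLip n U ψ L → closedBall 0 4 ⊆ ψ '' U →
  (∀ h : H, ∀ x ∈ U, ψ x ∈ closedBall 0 4 → h • x ∈ U ∧ dist (ψ (h • x)) (ψ x) ≤ 1 / 4) →
  (∀ h : H, Adm n (fun x : X => h • x)) →
  ∃ T : H → E n → E n, LocAct n H T ∧ (∀ h, ∃ N : ℕ, En N (T h)) ∧
    ∀ h : H, ∀ x ∈ U, ψ x ∈ closedBall 0 4 → T h (ψ x) = ψ (h • x)

/-- Newman's theorem for this class -/
def S_NEWS : Prop := ∀ (n : ℕ), 2 ≤ n → ∀ (X : Type) [MetricSpace X] [MeasurableSpace X]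
  [BorelSpace X] (p : ℕ), p.Prime →
  ∀ (P : Type) [Group P] [TopologicalSpace P] [IsTopologicalGroup P] [CompactSpace P] [T2Space P]
  [TotallyDisconnectedSpace P], ProP p P → ∀ [MulAction P X] [ContinuousSMul P X],
  (∀ h : P, Adm n (fun x : X => h • x)) → ∀ x0 ∈ Reg n X,
  ∀ (K : Subgroup P), IsOpen (K : Set P) → (∀ᶠ x in 𝓝 x0, ∀ k ∈ K, k • x = x) →
  (∀ V ∈ 𝓝 x0, ∃ a ∈ V, ∀ᶠ x in 𝓝 a, ∀ k : P, k • x = x) →
  ∀ᶠ x in 𝓝 x0, ∀ k : P, k • x = x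

end Pool.Agent.Y489.SP
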