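import Pool.Agent.Y489.SP.Stm

/-!
# Project SP (helper489): cyclic partition of a totally separated compact set
-/

set_option autoImplicit false

open Set Metric Filter Topology

namespace Pool.Agent.Y489.SP.Part

open Pool.Agent.Y485.HS

/-- exponents fixing a point in a permutation of prime power order without fixed points -/
theorem dvd_of {Ω : Type} (s : Equiv.Perm Ω) (p J : ℕ) (hp : p.Prime) (hq : s ^ (p ^ J) = 1)
    (r : Ω) (hr : s r ≠ r) (m : ℤ) (hm : (s ^ m) r = r) : (p : ℤ) ∣ m := by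
  by_contra hd
  have h1 : IsCoprime (p : ℤ) m :=
    (Nat.prime_iff_prime_int.1 hp).irreducible.coprime_iff_not_dvd.2 hd
  have hc : IsCoprime m ((p : ℤ) ^ J) := h1.symm.pow_right
  obtain ⟨a, b, hab⟩ := hc
  have h2 : s ^ (1 : ℤ) = (s ^ (p ^ J)) ^ b * (s ^ m) ^ a := by
    rw [← zpow_natCast, ← zpow_mul, ← zpow_mul, ← zpow_add, ← hab]
    congr 1
    push_cast
    ring
  have h3 : ((s ^ m) ^ a) r = r := Equiv.Perm.zpow_apply_eq_self_of_apply_eq_self hm a
  have h4 : s r = r := by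
    have h5 : (s ^ (1 : ℤ)) r = r := by
      rw [h2, hq, one_zpow, one_mul, h3]
    simpa using h5
  exact hr h4

/-- an equivariant map to the cyclic group of order `p` -/
theorem exists_kappa {Ω : Type} (s : Equiv.Perm Ω) (p J : ℕ) (hp : p.Prime)
    (hq : s ^ (p ^ J) = 1) (hfix : ∀ ω, s ω ≠ ω) :
    ∃ κ : Ω → ZMod p, ∀ ω, κ (s ω) = κ ω + 1 := by
  classical
  let S : Setoid Ω := Equiv.Perm.SameCycle.setoid s
  let rep : Ω → Ω := fun ω => (Quotient.mk S ω).out
  have hrep : ∀ ω, ∃ k : ℤ, (s ^ k) (rep ω) = ω := by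
    intro ω
    have h : S.r (rep ω) ω := Quotient.mk_out (s := S) ω
    exact h
  choose k hk using hrep
  refine ⟨fun ω => ((k ω : ℤ) : ZMod p), fun ω => ?_⟩
  have h1 : rep (s ω) = rep ω := by
    show (Quotient.mk S (s ω)).out = (Quotient.mk S ω).out
    congr 1
    apply Quotient.sound
    show Equiv.Perm.SameCycle s (s ω) ω
    exact ⟨-1, by simp⟩
  have h2 : (s ^ (-(k ω + 1) + k (s ω))) (rep ω) = rep ω := by
    have e1 : (s ^ (k (s ω))) (rep ω) = s ω := by
      have := hk (s ω)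
      rwa [h1] at this
    have e2 : (s ^ (k ω + 1)) (rep ω) = s ω := by
      rw [add_comm, zpow_add, Equiv.Perm.mul_apply, hk ω]
      simp
    rw [zpow_add, Equiv.Perm.mul_apply, e1, ← e2, ← Equiv.Perm.mul_apply, ← zpow_add]
    simp
  have h3 := dvd_of s p J hp hq (rep ω) (hfix _) _ h2
  show ((k (s ω) : ℤ) : ZMod p) = ((k ω : ℤ) : ZMod p) + 1
  have h4 : ((-(k ω + 1) + k (s ω) : ℤ) : ZMod p) = 0 :=
    (ZMod.intCast_zmod_eq_zero_iff_dvd _ p).2 h3
  push_cast at h4
  linear_combination h4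

theorem t_PART : S_PART := by
  classical
  intro n p hp Φ τ hΦ hsep hτ hmap hfix hunif
  rcases Φ.eq_empty_or_nonempty with rfl | hne
  · exact ⟨fun _ => ∅, fun _ => isCompact_empty, fun i j _ => disjoint_empty _, by simp,
      fun i x hx => hx.elim⟩
  -- the least displacement
  obtain ⟨x0, hx0, hmin⟩ := hΦ.exists_isMinOn hne
    (f := fun x => dist (τ x) x)
    (continuous_dist.comp_continuousOn (hτ.prodMk continuousOn_id))
  have hδ : 0 < dist (τ x0) x0 := dist_pos.2 (hfix x0 hx0)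
  set δ := dist (τ x0) x0 with hδdef
  have hδx : ∀ x ∈ Φ, δ ≤ dist (τ x) x := fun x hx => hmin hx
  -- a finite set of separating hyperplanes
  let I : Type := {q : Fin n × ℝ // ∀ z ∈ Φ, z q.1 ≠ q.2}
  let O : I → Set (E n × E n) := fun q =>
    {w | (w.1 q.1.1 < q.1.2 ∧ q.1.2 < w.2 q.1.1) ∨ (w.2 q.1.1 < q.1.2 ∧ q.1.2 < w.1 q.1.1)}
  have hO : ∀ q, IsOpen (O q) := by
    intro q
    have c1 : Continuous (fun w : E n × E n => w.1 q.1.1) := by fun_prop
    have c2 : Continuous (fun w : E n × E n => w.2 q.1.1) := by fun_prop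
    exact ((isOpen_lt c1 continuous_const).inter (isOpen_lt continuous_const c2)).union
      ((isOpen_lt c2 continuous_const).inter (isOpen_lt continuous_const c1))
  have hS : IsCompact ((Φ ×ˢ Φ) ∩ {w : E n × E n | δ ≤ dist w.1 w.2}) :=
    (hΦ.prod hΦ).inter_right (isClosed_le continuous_const (by fun_prop))
  obtain ⟨T, hT⟩ := hS.elim_finite_subcover O hO (by
    rintro ⟨x, x'⟩ ⟨⟨hx, hx'⟩, hd⟩
    have hxx : x ≠ x' := by
      rintro rfl
      have : δ ≤ dist x x := hd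
      rw [dist_self] at this
      linarith
    obtain ⟨i, t, h1, h2⟩ := hsep x hx x' hx' hxx
    exact mem_iUnion.2 ⟨⟨(i, t), h1⟩, h2⟩)
  let c : E n → (T → Prop) := fun x q => x q.1.1.1 < q.1.1.2
  have hcδ : ∀ x ∈ Φ, ∀ x' ∈ Φ, c x = c x' → dist x x' < δ := by
    intro x hx x' hx' hc
    by_contra hd
    push Not at hd
    obtain ⟨q, hq, h⟩ := mem_iUnion₂.1 (hT (show (x, x') ∈ _ from ⟨⟨hx, hx'⟩, hd⟩))
    have h1 := congrFun hc ⟨q, hq⟩
    have h1' : (x q.1.1 < q.1.2) = (x' q.1.1 < q.1.2) := h1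
    rcases h with h | h
    · have h2 : x' q.1.1 < q.1.2 := h1' ▸ h.1
      exact lt_asymm h2 h.2
    · have h2 : x q.1.1 < q.1.2 := h1'.symm ▸ h.1
      exact lt_asymm h2 h.2
  have hcτ : ∀ x ∈ Φ, c (τ x) ≠ c x := fun x hx h =>
    not_lt.2 (hδx x hx) (hcδ _ (hmap x hx) _ hx h)
  -- `c` is locally constant, uniformly
  have hcε : ∃ ε : ℝ, 0 < ε ∧ ∀ x ∈ Φ, ∀ x' ∈ Φ, dist x x' < ε → c x = c x' := by
    have hq : ∀ q : T, ∃ ε : ℝ, 0 < ε ∧ ∀ x ∈ Φ, ∀ x' ∈ Φ, dist x x' < ε → c x q = c x' q := by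
      intro q
      obtain ⟨z, hz, hzmin⟩ := hΦ.exists_isMinOn hne
        (f := fun x : E n => |x q.1.1.1 - q.1.1.2|) (by fun_prop)
      refine ⟨|z q.1.1.1 - q.1.1.2|, abs_pos.2 (sub_ne_zero.2 (q.1.2 z hz)), ?_⟩
      intro x hx x' hx' hd
      have h1 : |z q.1.1.1 - q.1.1.2| ≤ |x q.1.1.1 - q.1.1.2| := hzmin hx
      have h2 : |z q.1.1.1 - q.1.1.2| ≤ |x' q.1.1.1 - q.1.1.2| := hzmin hx'
      have h3 : |x q.1.1.1 - x' q.1.1.1| ≤ dist x x' := by
        have := PiLp.norm_apply_le (x - x') q.1.1.1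
        rw [dist_eq_norm]
        simpa using this
      have h4 : |x q.1.1.1 - x' q.1.1.1| < |z q.1.1.1 - q.1.1.2| := lt_of_le_of_lt h3 hd
      show (x q.1.1.1 < q.1.1.2) = (x' q.1.1.1 < q.1.1.2)
      apply propext
      constructor
      · intro h
        by_contra h'
        push Not at h'
        rw [abs_of_neg (sub_neg.2 h)] at h1
        have := neg_abs_le (x q.1.1.1 - x' q.1.1.1)
        linarith
      · intro h
        by_contra h'
        push Not at h'
        rw [abs_of_neg (sub_neg.2 h)] at h2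
        have := le_abs_self (x q.1.1.1 - x' q.1.1.1)
        linarith
    choose ε hε hεc using hq
    rcases isEmpty_or_nonempty T with hTe | hTn
    · exact ⟨1, one_pos, fun x _ x' _ _ => funext fun q => hTe.elim q⟩
    · obtain ⟨q0, hq0⟩ := Finite.exists_min ε
      exact ⟨ε q0, hε q0, fun x hx x' hx' hd => funext fun q =>
        hεc q x hx x' hx' (lt_of_lt_of_le hd (hq0 q))⟩
  obtain ⟨ε, hε, hεc⟩ := hcε
  obtain ⟨J, hJ⟩ := hunif ε hε
  have hit : ∀ k : ℕ, ∀ x ∈ Φ, τ^[k] x ∈ Φ := by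
    intro k
    induction k with
    | zero => intro x hx; exact hx
    | succ k ih => intro x hx; rw [Function.iterate_succ_apply]; exact ih _ (hmap x hx)
  obtain ⟨q, hqdef⟩ : ∃ q : ℕ, q = p ^ J := ⟨_, rfl⟩
  have hqpos : 0 < q := by rw [hqdef]; exact pow_pos hp.pos J
  let code : E n → ℕ → T → Prop := fun x k => c (τ^[k] x)
  have hper : ∀ x ∈ Φ, ∀ k, code x (k + q) = code x k := by
    intro x hx k
    show c (τ^[k + q] x) = c (τ^[k] x)
    rw [add_comm, Function.iterate_add_apply, hqdef]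
    exact hεc _ (hit _ _ (hit _ _ hx)) _ (hit _ _ hx) (hJ _ (hit _ _ hx))
  let Ω : Type := {f : ℕ → T → Prop // ∃ x ∈ Φ, f = code x}
  have hΩper : ∀ f : Ω, ∀ k, f.1 (k + q) = f.1 k := by
    rintro ⟨f, x, hx, rfl⟩ k
    exact hper x hx k
  have hshift : ∀ j : ℕ, ∀ f : Ω, ∃ x ∈ Φ, (fun k => f.1 (k + j)) = code x := by
    rintro j ⟨f, x, hx, rfl⟩
    refine ⟨τ^[j] x, hit j x hx, funext fun k => ?_⟩
    show c (τ^[k + j] x) = c (τ^[k] (τ^[j] x))
    rw [Function.iterate_add_apply]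
  let s : Equiv.Perm Ω :=
    { toFun := fun f => ⟨fun k => f.1 (k + 1), hshift 1 f⟩
      invFun := fun f => ⟨fun k => f.1 (k + (q - 1)), hshift (q - 1) f⟩
      left_inv := by
        intro f
        apply Subtype.ext
        funext k
        show f.1 (k + (q - 1) + 1) = f.1 k
        rw [show k + (q - 1) + 1 = k + q by omega]
        exact hΩper f k
      right_inv := by
        intro f
        apply Subtype.ext
        funext k
        show f.1 (k + 1 + (q - 1)) = f.1 k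
        rw [show k + 1 + (q - 1) = k + q by omega]
        exact hΩper f k }
  have hspow : ∀ j : ℕ, ∀ f : Ω, ∀ k, ((s ^ j) f).1 k = f.1 (k + j) := by
    intro j
    induction j with
    | zero => intro f k; simp
    | succ j ih =>
      intro f k
      rw [pow_succ, Equiv.Perm.mul_apply, ih]
      show f.1 (k + j + 1) = f.1 (k + (j + 1))
      rfl
  have hs1 : s ^ (p ^ J) = 1 := by
    ext f : 1
    apply Subtype.ext
    funext k
    rw [hspow, ← hqdef, hΩper]
    rfl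
  have hsfix : ∀ f : Ω, s f ≠ f := by
    rintro ⟨f, x, hx, rfl⟩ h
    have h1 := congrFun (congrArg Subtype.val h) 0
    have h2 : code x 1 = code x 0 := h1
    exact hcτ x hx h2
  obtain ⟨κ, hκ⟩ := exists_kappa s p J hp hs1 hsfix
  let cd : ∀ x, x ∈ Φ → Ω := fun x hx => ⟨code x, x, hx, rfl⟩
  let W : ZMod p → Set (E n) := fun i => {x | ∃ hx : x ∈ Φ, κ (cd x hx) = i}
  have hloc : ∀ x ∈ Φ, ∃ η : ℝ, 0 < η ∧ ∀ x' ∈ Φ, dist x' x < η → code x' = code x := by
    intro x hx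
    have hk : ∀ k : ℕ, ∃ η : ℝ, 0 < η ∧ ∀ x' ∈ Φ, dist x' x < η → code x' k = code x k := by
      intro k
      have hcont : ContinuousOn (τ^[k]) Φ := hτ.iterate (fun x hx => hmap x hx) k
      obtain ⟨η, hη, h⟩ := Metric.continuousOn_iff.1 hcont x hx ε hε
      exact ⟨η, hη, fun x' hx' hd => hεc _ (hit k x' hx') _ (hit k x hx) (h x' hx' hd)⟩
    choose η hη h using hk
    obtain ⟨k0, hk0, hmin0⟩ := Finset.exists_min_image (Finset.range q) η ⟨0, by simpa using hqpos⟩
    refine ⟨η k0, hη k0, fun x' hx' hd => funext fun k => ?_⟩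
    have hmod : ∀ y ∈ Φ, ∀ k, code y k = code y (k % q) := by
      intro y hy k
      induction k using Nat.strong_induction_on with
      | _ k ih =>
        rcases lt_or_ge k q with hlt | hge
        · rw [Nat.mod_eq_of_lt hlt]
        · have h1 := hper y hy (k - q)
          rw [Nat.sub_add_cancel hge] at h1
          rw [h1, ih (k - q) (by omega), Nat.mod_eq_sub_mod hge]
    rw [hmod x' hx' k, hmod x hx k]
    refine h _ x' hx' (lt_of_lt_of_le hd (hmin0 _ ?_))
    exact Finset.mem_range.2 (Nat.mod_lt _ hqpos)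
  have hcd : ∀ x (hx : x ∈ Φ) x' (hx' : x' ∈ Φ), code x = code x' → cd x hx = cd x' hx' :=
    fun x hx x' hx' h => Subtype.ext h
  refine ⟨W, fun i => ?_, ?_, ?_, ?_⟩
  · choose! η hη h using hloc
    have h1 : W i = Φ \ ⋃ x ∈ Φ \ W i, ball x (η x) := by
      ext z
      constructor
      · rintro ⟨hz, hzi⟩
        refine ⟨hz, fun hz' => ?_⟩
        obtain ⟨x, ⟨hx, hxW⟩, hzx⟩ := mem_iUnion₂.1 hz'
        exact hxW ⟨hx, by rw [← hzi, hcd z hz x hx (h x hx z hz hzx)]⟩
      · rintro ⟨hz, hz'⟩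
        by_contra hzW
        exact hz' (mem_iUnion₂.2 ⟨z, ⟨hz, hzW⟩, mem_ball_self (hη z hz)⟩)
    rw [h1]
    exact hΦ.diff (isOpen_biUnion fun x _ => isOpen_ball)
  · intro i j hij
    rw [Set.disjoint_left]
    rintro x ⟨hx, h1⟩ ⟨hx', h2⟩
    exact hij (h1.symm.trans h2)
  · ext x
    constructor
    · intro hx
      obtain ⟨i, hx', -⟩ := mem_iUnion.1 hx
      exact hx'
    · intro hx
      exact mem_iUnion.2 ⟨κ (cd x hx), hx, rfl⟩
  · rintro i x ⟨hx, rfl⟩
    refine ⟨hmap x hx, ?_⟩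
    rw [← hκ]
    congr 1

end Pool.Agent.Y489.SP.Part
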