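import Pool.Agent.Y489.SP.Main
import Pool.Agent.Y489.SP.Part
import Pool.Agent.Y566.SP.Face
import Pool.Agent.Y147.SP.INT
import Pool.Agent.Y236.SP.COMPT
import Pool.Agent.Y255.SP.HOMT
import Pool.Agent.Y340.SP.POW
import Pool.Agent.Y401.SPN.Fib
import Pool.Agent.Y532.SP.AVE
import Pool.Agent.Y532.SP.BAI
import Pool.Agent.Y532.SP.LOCS
import Pool.Agent.Y662.SP.SOB
import Pool.Agent.Y739.SP.APX

import Pool.Agent.Y810.SP.NEWS
import Pool.Agent.Y909.SP.MOR
import Pool.Agent.Y909.SP.TRA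
import Pool.Agent.Y983.SP.DEGP
import Pool.Agent.Y658.HS.Start
import Pool.Agent.Y215.HS.Syl
import Pool.Agent.Y665.HS.Coord

/-!
# Project SP (helper489): assembly of the parts
-/

set_option autoImplicit false

open Filter Topology

namespace Pool.Agent.Y489.SP

open Pool.Agent.Y485.HS

theorem homt : S_HOMT := Pool.Agent.Y255.SP.t_HOMT

theorem degp : S_DEGP :=
  Pool.Agent.Y983.SP.DEGP.t_DEGP Pool.Agent.Y739.SP.t_APX homt Pool.Agent.Y236.SP.t_COMPT
    (Pool.Agent.Y147.SP.t_INT homt)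

theorem locs : S_LOCS :=
  Pool.Agent.Y532.SP.LOCS.t_LOCS Pool.Agent.Y532.SP.AVE.t_AVE Pool.Agent.Y401.SPN.t_NUL
    Part.t_PART degp

/-- The Hilbert-Smith conjecture for the class. -/
theorem lie_final {n : ℕ} (hn : 2 ≤ n) {X : Type} [MetricSpace X]
    [MeasurableSpace X] [BorelSpace X]
    {G : Type} [Group G] [TopologicalSpace G] [IsTopologicalGroup G] [LocallyCompactSpace G]
    [MulAction G X] [ContinuousSMul G X] [FaithfulSMul G X]
    (hdense : Dense (Reg n X)) (hconn : IsPreconnected (Reg n X))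
    (hadm : ∀ᶠ g in 𝓝 (1 : G), Adm n (fun x : X => g • x)) : IsLie G := by
  have htra : S_TRA := Pool.Agent.Y909.SP.t_TRA
    (Pool.Agent.Y662.SP.SOB.t_SOB (Pool.Agent.Y566.SP.t_FACE Pool.Agent.Y909.SP.t_MOR))
  exact lie_main locs Pool.Agent.Y340.SP.t_POW htra Pool.Agent.Y658.HS.start
    Pool.Agent.Y532.SP.BAI.t_BAI
    (Pool.Agent.Y810.SP.t_NEWS locs Pool.Agent.Y340.SP.t_POW htra Pool.Agent.Y665.HS.coord)
    Pool.Agent.Y215.HS.syl hn hdense hconn hadm

end Pool.Agent.Y489.SP
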